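import Pool.Agent.Lib.MP_688fd0_co.LIN.Iface

/-!
LIN, module LEVEL: the levels of a chain are connected vertex-transitive graphs of bounded degree.
-/

set_option autoImplicit false

namespace Pool.Agent.Lib.MP_688fd0_co.LIN.H28

open Classical
open Pool.Agent.Lib.MP_688fd0_co.LP (Symm cay cay_adj)

universe u

section
variable {Γ : Type u} [Group Γ]

lemma lv_adj {T : Finset Γ} (hT : Symm T) {x y : ↥(Subgroup.closure (T : Set Γ))} :
    (lv T).Adj x y ↔ x ≠ y ∧ (x : Γ)⁻¹ * (y : Γ) ∈ T := by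
  unfold lv
  rw [SimpleGraph.comap_adj, cay_adj hT]
  simp only [ne_eq, Subtype.ext_iff]

/-- left translation -/
def tr (T : Finset Γ) (hT : Symm T) (g : ↥(Subgroup.closure (T : Set Γ))) : lv T ≃g lv T where
  toEquiv := Equiv.mulLeft g
  map_rel_iff' := by
    intro x y
    rw [lv_adj hT, lv_adj hT]
    simp [mul_assoc]

lemma lv_vt {T : Finset Γ} (hT : Symm T) : VT (lv T) := by
  refine ⟨?_, ?_⟩
  · have hmain : ∀ (x : Γ) (hx : x ∈ Subgroup.closure (T : Set Γ)), (lv T).Reachable 1 ⟨x, hx⟩ := by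
      intro x hx
      induction hx using Subgroup.closure_induction with
      | mem x hx =>
        by_cases h1 : x = 1
        · subst h1
          exact SimpleGraph.Reachable.refl _
        · refine SimpleGraph.Adj.reachable ?_
          rw [lv_adj hT]
          refine ⟨?_, ?_⟩
          · intro h
            have := congrArg Subtype.val h
            exact h1 this.symm
          · simpa using hx
      | one => exact SimpleGraph.Reachable.refl _
      | mul x y hx hy ihx ihy =>
        have h := ihy.map (tr T hT ⟨x, hx⟩).toHom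
        refine ihx.trans ?_
        have e1 : (tr T hT ⟨x, hx⟩).toHom 1 = (⟨x, hx⟩ : ↥(Subgroup.closure (T : Set Γ))) := by
          change (⟨x, hx⟩ : ↥(Subgroup.closure (T : Set Γ))) * 1 = _
          rw [mul_one]
        have e2 : (tr T hT ⟨x, hx⟩).toHom ⟨y, hy⟩ = (⟨x * y, mul_mem hx hy⟩ : ↥(Subgroup.closure (T : Set Γ))) :=
          rfl
        rw [e1, e2] at h
        exact h
      | inv x hx ih =>
        have h := ih.map (tr T hT (⟨x, hx⟩⁻¹)).toHom
        have e1 : (tr T hT (⟨x, hx⟩⁻¹)).toHom 1 = (⟨x⁻¹, inv_mem hx⟩ : ↥(Subgroup.closure (T : Set Γ))) := by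
          change (⟨x, hx⟩⁻¹ : ↥(Subgroup.closure (T : Set Γ))) * 1 = _
          rw [mul_one]
          rfl
        have e2 : (tr T hT (⟨x, hx⟩⁻¹)).toHom ⟨x, hx⟩ = (1 : ↥(Subgroup.closure (T : Set Γ))) := by
          change (⟨x, hx⟩⁻¹ : ↥(Subgroup.closure (T : Set Γ))) * ⟨x, hx⟩ = _
          rw [inv_mul_cancel]
        rw [e1, e2] at h
        exact h.symm
    refine ⟨fun x y => ?_⟩
    exact (hmain x.1 x.2).symm.trans (hmain y.1 y.2)
  · intro x y
    refine ⟨tr T hT (y * x⁻¹), ?_⟩
    change (y * x⁻¹) * x = y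
    rw [inv_mul_cancel_right]

lemma lv_dg [Fintype Γ] {T : Finset Γ} (hT : Symm T) (v : ↥(Subgroup.closure (T : Set Γ))) :
    dg (lv T) v ≤ T.card := by
  unfold dg
  refine Finset.card_le_card_of_injOn (fun w => (v : Γ)⁻¹ * (w : Γ)) ?_ ?_
  · intro w hw
    have h := (Finset.mem_filter.1 hw).2
    rw [lv_adj hT] at h
    exact h.2
  · intro w _ w' _ h
    exact Subtype.ext (mul_left_cancel h)

lemma chT_symm {A0 : Finset Γ} (a : ℕ → Γ) (h0 : Symm A0) : ∀ j, Symm (chT A0 a j)
  | 0 => h0
  | j + 1 => by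
    have ih := chT_symm a h0 j
    refine ⟨?_, ?_⟩
    · simp only [chT, Finset.mem_insert]
      exact Or.inr (Or.inr ih.one)
    · intro x hx
      simp only [chT, Finset.mem_insert] at hx ⊢
      rcases hx with rfl | rfl | hx
      · exact Or.inr (Or.inl rfl)
      · left; simp
      · exact Or.inr (Or.inr (ih.inv x hx))

lemma chT_card (A0 : Finset Γ) (a : ℕ → Γ) : ∀ j, (chT A0 a j).card ≤ A0.card + 2 * j
  | 0 => by simp [chT]
  | j + 1 => by
    have ih := chT_card A0 a j
    have h1 := Finset.card_insert_le (a j) (insert (a j)⁻¹ (chT A0 a j))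
    have h2 := Finset.card_insert_le (a j)⁻¹ (chT A0 a j)
    simp only [chT]
    omega

end

theorem level : LevelStatement.{u} := by
  intro Γ _ _ A0 a h0 j
  have hT := chT_symm a h0 j
  refine ⟨hT, lv_vt hT, fun v => ?_⟩
  exact (lv_dg hT v).trans (chT_card A0 a j)

end Pool.Agent.Lib.MP_688fd0_co.LIN.H28
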