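import Pool.Agent.Lib.MP_688fd0_co.LIN.Iface

/-!
LIN, module LING (L2): linear growth above a linear scale.
-/

set_option autoImplicit false

namespace Pool.Agent.Lib.MP_688fd0_co.LIN.H28

open Classical

universe u

section
variable {V : Type u} {G : SimpleGraph V}

lemma geo_abs {γ : ℕ → V} {L i j : ℕ} (hg : Geo G γ L) (hi : i ≤ L) (hj : j ≤ L) :
    G.dist (γ i) (γ j) = (i - j) + (j - i) := by
  rcases le_total i j with h | h
  · rw [hg i j h hj]; omega
  · rw [SimpleGraph.dist_comm, hg j i h hi]; omega

/-- two geodesics from `o` that are close at time `15 w` stay close. -/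
lemma follow [Fintype V] (hc : G.Connected) {r w : ℕ} (hw : w = 2 * r + 1)
    (hL : ∀ (γ : ℕ → V) (s : ℕ), Geo G (fun i => γ (s + i)) (30 * w) →
      ∀ y, G.dist (γ (s + 15 * w)) y ≤ 15 * w → ∃ i ≤ 30, G.dist y (γ (s + i * w)) ≤ 2 * r)
    {o : V} {g g' : ℕ → V} {L L' : ℕ} (h0 : g 0 = o) (h0' : g' 0 = o) (hg : Geo G g L) (hg' : Geo G g' L')
    (hbig : 31 * w ≤ L) (h15 : G.dist (g (15 * w)) (g' (15 * w)) ≤ 4 * r) :
    ∀ t, 15 * w ≤ t → t + 4 * w ≤ L → t ≤ L' → G.dist (g t) (g' t) ≤ 4 * r := by
  intro t ht
  induction t, ht using Nat.le_induction with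
  | base => intro _ _; exact h15
  | succ t ht ih =>
    intro h1 h2
    have h3 := ih (by omega) (by omega)
    have h4 := geo_abs hg (i := t) (j := t + 1) (by omega) (by omega)
    have h5 := geo_abs hg' (i := t) (j := t + 1) (by omega) (by omega)
    have h6 : G.dist (g (t + 1)) (g' (t + 1)) ≤ 4 * r + 2 := by
      have a1 := hc.dist_triangle (u := g (t + 1)) (v := g t) (w := g' (t + 1))
      have a2 := hc.dist_triangle (u := g t) (v := g' t) (w := g' (t + 1))
      have a3 : G.dist (g (t + 1)) (g t) = G.dist (g t) (g (t + 1)) := SimpleGraph.dist_comm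
      omega
    obtain ⟨s, hs1, hs2, hs3⟩ : ∃ s, s + 30 * w ≤ L ∧ s + 15 * w ≤ t + 1 ∧ t + 1 ≤ s + 15 * w + 11 * w := by
      rcases le_total (t + 1) (L - 15 * w) with h | h
      · exact ⟨t + 1 - 15 * w, by omega, by omega, by omega⟩
      · exact ⟨L - 15 * w - 15 * w, by omega, by omega, by omega⟩
    have h7 : Geo G (fun i => g (s + i)) (30 * w) := by
      intro i j hij hj
      have := hg (s + i) (s + j) (by omega) (by omega)
      simp only
      omega
    have h8 : G.dist (g (s + 15 * w)) (g' (t + 1)) ≤ 15 * w := by
      have a1 := hc.dist_triangle (u := g (s + 15 * w)) (v := g (t + 1)) (w := g' (t + 1))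
      have a2 := geo_abs hg (i := s + 15 * w) (j := t + 1) (by omega) (by omega)
      omega
    obtain ⟨i, hi, hy⟩ := hL g s h7 _ h8
    have hiw : i * w ≤ 30 * w := Nat.mul_le_mul_right _ hi
    have b1 := geo_abs hg (i := 0) (j := s + i * w) (by omega) (by omega)
    have b2 := geo_abs hg' (i := 0) (j := t + 1) (by omega) (by omega)
    rw [h0] at b1
    rw [h0'] at b2
    have b3 := hc.dist_triangle (u := o) (v := g' (t + 1)) (w := g (s + i * w))
    have b4 := hc.dist_triangle (u := o) (v := g (s + i * w)) (w := g' (t + 1))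
    have b5 : G.dist (g (s + i * w)) (g' (t + 1)) = G.dist (g' (t + 1)) (g (s + i * w)) := SimpleGraph.dist_comm
    have b6 := geo_abs hg (i := t + 1) (j := s + i * w) (by omega) (by omega)
    have b7 := hc.dist_triangle (u := g (t + 1)) (v := g (s + i * w)) (w := g' (t + 1))
    omega

end

theorem ling (hline : LineStatement.{u}) (hgeo : GeoStatement.{u}) (hbase : BaseStatement.{u}) :
    LingStatement.{u} := by
  intro V _ G hvt D hdiam r w hw hlin hD
  have hc := hvt.conn
  obtain ⟨hb, -, -, -, hmono, -, -⟩ := hbase V G hvt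
  obtain ⟨hgeo1, hgeo2⟩ := hgeo V G hvt D hdiam
  have hL := hline V G hvt r w hw hlin
  have hw1 : 1 ≤ w := by omega
  obtain ⟨hDall, o, -, -⟩ := hdiam
  obtain ⟨γ, hγo, hγ⟩ := hgeo2 (30 * w) (15 * w) hD (by omega) o
  choose g hg0 hg1 hg using (fun y => hgeo1 o y)
  have hγ' : Geo G (fun i => γ (0 + i)) (30 * w) := by simpa using hγ
  have hbw : ∀ R, R ≤ r + 15 * w → bn G R ≤ 32 * bn G r := fun R hR => ((hmono _ _ hR).trans hlin.le)
  -- a point at distance `15 w` from `o` is close to one of the two ends of `γ`
  have hend : ∀ y, 15 * w ≤ G.dist o y →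
      G.dist (g y (15 * w)) (γ 0) ≤ 2 * r ∨ G.dist (g y (15 * w)) (γ (30 * w)) ≤ 2 * r := by
    intro y hy
    have h1 := geo_abs (hg y) (i := 0) (j := 15 * w) (by omega) hy
    rw [hg0] at h1
    obtain ⟨i, hi, hyi⟩ := hL γ 0 hγ' (g y (15 * w)) (by simp only [Nat.zero_add]; rw [hγo]; omega)
    simp only [Nat.zero_add] at hyi
    have hiw : i * w ≤ 30 * w := Nat.mul_le_mul_right _ hi
    have h2 := geo_abs hγ (i := 15 * w) (j := i * w) (by omega) hiw
    rw [hγo] at h2
    have h3 := hc.dist_triangle (u := o) (v := γ (i * w)) (w := g y (15 * w))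
    have h4 : G.dist (γ (i * w)) (g y (15 * w)) = G.dist (g y (15 * w)) (γ (i * w)) := SimpleGraph.dist_comm
    rcases Nat.eq_zero_or_pos i with h0 | h0
    · left
      rw [h0, Nat.zero_mul] at hyi
      exact hyi
    · rcases Nat.lt_or_ge i 30 with h30 | h30
      · exfalso
        have a1 : 1 * w ≤ i * w := Nat.mul_le_mul_right _ h0
        have a2 : i * w ≤ 29 * w := Nat.mul_le_mul_right _ (by omega)
        omega
      · right
        have : i = 30 := by omega
        rw [this] at hyi
        exact hyi
  -- growth by two balls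
  have hgrow : ∀ s, bn G (15 * w + s) ≤ bn G (15 * w) + (bn G (s + 2 * r) + bn G (s + 2 * r)) := by
    intro s
    have hsub : bl G o (15 * w + s) ⊆
        bl G o (15 * w) ∪ (bl G (γ 0) (s + 2 * r) ∪ bl G (γ (30 * w)) (s + 2 * r)) := by
      intro y hy
      simp only [Finset.mem_union, bl, Finset.mem_filter, Finset.mem_univ, true_and] at hy ⊢
      rcases Nat.lt_or_ge (G.dist o y) (15 * w) with h1 | h1
      · left; omega
      · right
        have h2 := geo_abs (hg y) (i := 15 * w) (j := G.dist o y) h1 le_rfl
        rw [hg1] at h2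
        rcases hend y h1 with h3 | h3
        · left
          have h4 := hc.dist_triangle (u := γ 0) (v := g y (15 * w)) (w := y)
          have h5 : G.dist (γ 0) (g y (15 * w)) = G.dist (g y (15 * w)) (γ 0) := SimpleGraph.dist_comm
          omega
        · right
          have h4 := hc.dist_triangle (u := γ (30 * w)) (v := g y (15 * w)) (w := y)
          have h5 : G.dist (γ (30 * w)) (g y (15 * w)) = G.dist (g y (15 * w)) (γ (30 * w)) :=
            SimpleGraph.dist_comm
          omega
    have h1 := Finset.card_le_card hsub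
    have h2 := Finset.card_union_le (bl G o (15 * w)) (bl G (γ 0) (s + 2 * r) ∪ bl G (γ (30 * w)) (s + 2 * r))
    have h3 := Finset.card_union_le (bl G (γ 0) (s + 2 * r)) (bl G (γ (30 * w)) (s + 2 * r))
    simp only [hb] at h1 h2 h3
    omega
  have h17 : bn G (17 * w) ≤ 96 * bn G r := by
    have h1 := hgrow (2 * w)
    have h2 := hbw (15 * w) (by omega)
    have h3 := hbw (2 * w + 2 * r) (by omega)
    have h4 : 15 * w + 2 * w = 17 * w := by ring
    rw [h4] at h1
    omega
  have h31 : bn G (31 * w) ≤ 224 * bn G r := by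
    have h1 := hgrow (16 * w)
    have h2 := hbw (15 * w) (by omega)
    have h3 := hmono (16 * w + 2 * r) (17 * w) (by omega)
    have h4 : 15 * w + 16 * w = 31 * w := by ring
    rw [h4] at h1
    omega
  -- points of the same annulus and the same type are close
  have hclose : ∀ y z p, 31 * w ≤ G.dist o y → 31 * w ≤ G.dist o z → G.dist o y < G.dist o z + w →
      G.dist o z < G.dist o y + w → G.dist (g y (15 * w)) p ≤ 2 * r → G.dist (g z (15 * w)) p ≤ 2 * r →
      G.dist y z ≤ 11 * w := by
    intro y z p hy hz hyz hzy hp hp'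
    have h15 : G.dist (g y (15 * w)) (g z (15 * w)) ≤ 4 * r := by
      have h1 := hc.dist_triangle (u := g y (15 * w)) (v := p) (w := g z (15 * w))
      have h2 : G.dist p (g z (15 * w)) = G.dist (g z (15 * w)) p := SimpleGraph.dist_comm
      omega
    obtain ⟨t, ht⟩ : ∃ t, t = min (G.dist o y) (G.dist o z) - 4 * w := ⟨_, rfl⟩
    have hF := follow hc hw hL (hg0 y) (hg0 z) (hg y) (hg z) hy h15 t (by omega) (by omega) (by omega)
    have h1 := geo_abs (hg y) (i := t) (j := G.dist o y) (by omega) le_rfl
    have h2 := geo_abs (hg z) (i := t) (j := G.dist o z) (by omega) le_rfl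
    rw [hg1] at h1 h2
    have h3 := hc.dist_triangle (u := y) (v := g y t) (w := z)
    have h4 := hc.dist_triangle (u := g y t) (v := g z t) (w := z)
    have h5 : G.dist y (g y t) = G.dist (g y t) y := SimpleGraph.dist_comm
    omega
  -- counting
  set f : V → ℕ × Bool := fun y => (G.dist o y / w, decide (G.dist (g y (15 * w)) (γ 0) ≤ 2 * r)) with hf
  have hcount : Fintype.card V ≤ (224 * bn G r) * (2 * (D / w + 1)) := by
    have hcard : (Finset.univ : Finset V).card ≤ (224 * bn G r) *
        ((Finset.range (D / w + 1)) ×ˢ (Finset.univ : Finset Bool)).card := by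
      refine Finset.card_le_mul_card_image_of_maps_to (f := f) ?_ _ ?_
      · intro y _
        rw [Finset.mem_product]
        refine ⟨?_, Finset.mem_univ _⟩
        rw [Finset.mem_range, hf]
        have : G.dist o y / w ≤ D / w := Nat.div_le_div_right (hDall o y)
        simp only
        omega
      · intro b _
        rcases (Finset.univ.filter (fun a => f a = b)).eq_empty_or_nonempty with h0 | ⟨y0, hy0⟩
        · rw [h0]; simp
        · have hy0' : f y0 = b := (Finset.mem_filter.1 hy0).2
          have hinv : ∀ y, f y = b → G.dist o y / w = b.1 ∧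
              decide (G.dist (g y (15 * w)) (γ 0) ≤ 2 * r) = b.2 := by
            intro y hy
            rw [← hy]
            exact ⟨rfl, rfl⟩
          have hdiv : ∀ y, f y = b → w * b.1 ≤ G.dist o y ∧ G.dist o y < w * b.1 + w := by
            intro y hy
            obtain ⟨h1, -⟩ := hinv y hy
            have h2 := Nat.div_add_mod (G.dist o y) w
            have h3 := Nat.mod_lt (G.dist o y) hw1
            rw [h1] at h2
            omega
          rcases Nat.lt_or_ge b.1 31 with hb1 | hb1
          · refine le_trans ?_ h31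
            rw [← hb o (31 * w)]
            refine Finset.card_le_card ?_
            intro y hy
            obtain ⟨h1, h2⟩ := hdiv y (Finset.mem_filter.1 hy).2
            have h3 : w * b.1 ≤ w * 30 := Nat.mul_le_mul_left _ (by omega)
            simp only [bl, Finset.mem_filter, Finset.mem_univ, true_and]
            omega
          · have h32 := hbw (11 * w) (by omega)
            refine le_trans ?_ (h32.trans (Nat.mul_le_mul_right _ (by norm_num)))
            rw [← hb y0 (11 * w)]
            refine Finset.card_le_card ?_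
            intro y hy
            have hy' := (Finset.mem_filter.1 hy).2
            obtain ⟨h1, h2⟩ := hdiv y hy'
            obtain ⟨h1', h2'⟩ := hdiv y0 hy0'
            have h3 : w * 31 ≤ w * b.1 := Nat.mul_le_mul_left _ hb1
            obtain ⟨-, h4⟩ := hinv y hy'
            obtain ⟨-, h4'⟩ := hinv y0 hy0'
            simp only [bl, Finset.mem_filter, Finset.mem_univ, true_and]
            by_cases htype : G.dist (g y0 (15 * w)) (γ 0) ≤ 2 * r
            · have h5 : G.dist (g y (15 * w)) (γ 0) ≤ 2 * r := by
                rw [decide_eq_true htype] at h4'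
                rw [← h4'] at h4
                exact of_decide_eq_true h4
              exact hclose y0 y (γ 0) (by omega) (by omega) (by omega) (by omega) htype h5
            · have h5 : ¬ G.dist (g y (15 * w)) (γ 0) ≤ 2 * r := by
                rw [decide_eq_false htype] at h4'
                rw [← h4'] at h4
                exact of_decide_eq_false h4
              have h6 := (hend y0 (by omega)).resolve_left htype
              have h7 := (hend y (by omega)).resolve_left h5
              exact hclose y0 y (γ (30 * w)) (by omega) (by omega) (by omega) (by omega) h6 h7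
    rw [Finset.card_univ, Finset.card_product, Finset.card_range, Finset.card_univ, Fintype.card_bool] at hcard
    calc Fintype.card V ≤ _ := hcard
      _ = _ := by ring
  have hdw : w * (D / w) ≤ D := Nat.mul_div_le D w
  calc w * Fintype.card V ≤ w * ((224 * bn G r) * (2 * (D / w + 1))) := Nat.mul_le_mul_left _ hcount
    _ = (448 * (w * (D / w) + w)) * bn G r := by ring
    _ ≤ (100000 * D) * bn G r := Nat.mul_le_mul_right _ (by omega)

end Pool.Agent.Lib.MP_688fd0_co.LIN.H28
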