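import Pool.Agent.Lib.MP_688fd0_co.LIN.Iface
import Pool.Agent.Lib.MP_688fd0_co.LP.ConnBasic

/-!
LIN, module OMEGA (8a, 8b): the neighbourhood of a geodesic at a linear scale.
-/

set_option autoImplicit false

namespace Pool.Agent.Lib.MP_688fd0_co.LIN.H28

open Classical
open Pool.Agent.Lib.MP_688fd0_co.LP (IsP IsPB Conn Cyc Symm cay)

universe u

section
variable {V : Type u} [Fintype V] {G : SimpleGraph V}

/-- A walk stays within its length of its first vertex. -/
lemma conn_of_walk (hc : G.Connected) {x y : V} (p : G.Walk x y) :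
    Conn G {z | G.dist x z ≤ p.length} x y := by
  induction p with
  | nil => exact Conn.refl (by simp)
  | @cons u v w h q ih =>
    have h1 : G.dist u v = 1 := SimpleGraph.dist_eq_one_iff_adj.2 h
    have h2 : Conn G {z | G.dist u z ≤ (SimpleGraph.Walk.cons h q).length} v w := by
      refine ih.mono ?_
      intro z hz
      simp only [Set.mem_ofPred_eq, SimpleGraph.Walk.length_cons] at hz ⊢
      have := hc.dist_triangle (u := u) (v := v) (w := z)
      omega
    refine Conn.trans (Conn.adj ?_ h2.left h) h2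
    simp

lemma conn_dist (hc : G.Connected) (x y : V) : Conn G {z | G.dist x z ≤ G.dist x y} x y := by
  obtain ⟨p, hp⟩ := hc.exists_walk_length_eq_dist x y
  rw [← hp]
  exact conn_of_walk hc p

lemma mem_bl {x y : V} {r : ℕ} : y ∈ bl G x r ↔ G.dist x y ≤ r := by simp [bl]

lemma mem_om {γ : ℕ → V} {w D : ℕ} {x : V} :
    x ∈ om G γ w D ↔ ∃ t, 15 * w ≤ t ∧ t + 15 * w ≤ D ∧ G.dist x (γ t) ≤ w := by simp [om]

/-- distances along a geodesic from its first vertex -/
lemma geo0 {γ : ℕ → V} {D t : ℕ} (hg : Geo G γ D) (ht : t ≤ D) : G.dist (γ 0) (γ t) = t := by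
  have := hg 0 t (Nat.zero_le _) ht
  omega

lemma height_close (hc : G.Connected) {γ : ℕ → V} {D t w : ℕ} (hg : Geo G γ D) (ht : t ≤ D) {x : V}
    (hx : G.dist x (γ t) ≤ w) : G.dist (γ 0) x ≤ t + w ∧ t ≤ G.dist (γ 0) x + w := by
  have h0 := geo0 hg ht
  have h1 := hc.dist_triangle (u := γ 0) (v := γ t) (w := x)
  have h2 := hc.dist_triangle (u := γ 0) (v := x) (w := γ t)
  have h3 : G.dist (γ t) x = G.dist x (γ t) := SimpleGraph.dist_comm
  omega

/-- walk along the geodesic -/
lemma conn_geo {γ : ℕ → V} {D : ℕ} (hg : Geo G γ D) {F : Set V} {s t : ℕ} (hst : s ≤ t) (ht : t ≤ D)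
    (hF : ∀ i, s ≤ i → i ≤ t → γ i ∈ F) : Conn G F (γ s) (γ t) := by
  induction t, hst using Nat.le_induction with
  | base => exact Conn.refl (hF s le_rfl le_rfl)
  | succ t hst ih =>
    have h1 := ih (by omega) (fun i h1 h2 => hF i h1 (by omega))
    refine h1.tail ?_ (hF _ (by omega) le_rfl)
    rw [← SimpleGraph.dist_eq_one_iff_adj, hg t (t + 1) (by omega) ht]
    omega

/-- a subset of a ball has at most `bn` elements -/
lemma card_le_bn (hb : ∀ (x : V) r, (bl G x r).card = bn G r) {S : Finset V} {x : V} {r : ℕ}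
    (h : ∀ y ∈ S, G.dist x y ≤ r) : S.card ≤ bn G r := by
  rw [← hb x r]
  exact Finset.card_le_card (fun y hy => mem_bl.2 (h y hy))

end

theorem omega_st (hline : LineStatement.{u}) (hbase : BaseStatement.{u}) : OmegaStatement.{u} := by
  intro V _ G r w D γ h
  obtain ⟨hvt, hw, hlin, hg, hD⟩ := h
  have hc := hvt.conn
  obtain ⟨hb, -, -, -, hmono, -, -⟩ := hbase V G hvt
  have hw1 : 1 ≤ w := by omega
  have hsh : ∀ s, s + 30 * w ≤ D → Geo G (fun i => γ (s + i)) (30 * w) := by
    intro s hs i j hij hj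
    have := hg (s + i) (s + j) (by omega) (by omega)
    simp only
    omega
  have hbw : ∀ R, R ≤ r + 15 * w → bn G R ≤ 32 * bn G r := fun R hR => ((hmono _ _ hR).trans hlin.le)
  have hheight : ∀ x ∈ om G γ w D, ∃ t, 15 * w ≤ t ∧ t + 15 * w ≤ D ∧ G.dist x (γ t) ≤ w ∧
      G.dist (γ 0) x ≤ t + w ∧ t ≤ G.dist (γ 0) x + w := by
    intro x hx
    obtain ⟨t, h1, h2, h3⟩ := mem_om.1 hx
    obtain ⟨h4, h5⟩ := height_close hc hg (by omega) h3
    exact ⟨t, h1, h2, h3, h4, h5⟩
  refine ⟨?_, ?_, ?_, ?_⟩
  · -- closed under neighbours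
    intro x hx h1 h2 x' hadj
    obtain ⟨t, ht1, ht2, ht3, ht4, ht5⟩ := hheight x hx
    have hxx : G.dist x x' = 1 := SimpleGraph.dist_eq_one_iff_adj.2 hadj
    have hd : G.dist (γ t) x' ≤ w + 1 := by
      have := hc.dist_triangle (u := γ t) (v := x) (w := x')
      have h3 : G.dist (γ t) x = G.dist x (γ t) := SimpleGraph.dist_comm
      omega
    obtain ⟨s, hs⟩ : ∃ s, t = s + 15 * w := ⟨t - 15 * w, by omega⟩
    obtain ⟨i, hi, hy⟩ := hline V G hvt r w hw hlin γ s (hsh s (by omega)) x' (by rw [← hs]; omega)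
    have hlt : G.dist (γ (s + i * w)) (γ t) ≤ w + 1 + 2 * r := by
      have := hc.dist_triangle (u := γ (s + i * w)) (v := x') (w := γ t)
      have h3 : G.dist (γ (s + i * w)) x' = G.dist x' (γ (s + i * w)) := SimpleGraph.dist_comm
      have h4 : G.dist x' (γ t) = G.dist (γ t) x' := SimpleGraph.dist_comm
      omega
    have hiw : i * w ≤ 30 * w := Nat.mul_le_mul_right _ hi
    have hclose : s + i * w ≤ t + 2 * w ∧ t ≤ s + i * w + 2 * w := by
      rcases le_total (s + i * w) t with hle | hle
      · have := hg (s + i * w) t hle (by omega)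
        omega
      · have := hg t (s + i * w) hle (by omega)
        rw [SimpleGraph.dist_comm] at this
        omega
    rw [mem_om]
    exact ⟨s + i * w, by omega, by omega, by omega⟩
  · -- volume
    intro a b hab
    set S := (om G γ w D).filter (fun x => a ≤ G.dist (γ 0) x ∧ G.dist (γ 0) x ≤ b) with hS
    set m := (b - a + 2 * w) / w + 1 with hm
    have hsub : S ⊆ (Finset.range m).biUnion (fun j => bl G (γ ((a - w) + j * w)) (2 * w)) := by
      intro x hx
      obtain ⟨hx1, hx2, hx3⟩ := Finset.mem_filter.1 hx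
      obtain ⟨t, ht1, ht2, ht3, ht4, ht5⟩ := hheight x hx1
      rw [Finset.mem_biUnion]
      refine ⟨(t - (a - w)) / w, ?_, ?_⟩
      · rw [Finset.mem_range, hm]
        have : (t - (a - w)) / w ≤ (b - a + 2 * w) / w := Nat.div_le_div_right (by omega)
        omega
      · rw [mem_bl]
        have h1 := Nat.div_add_mod (t - (a - w)) w
        have h2 := Nat.mod_lt (t - (a - w)) hw1
        have h3 : w * ((t - (a - w)) / w) = (t - (a - w)) / w * w := Nat.mul_comm _ _
        have h4 := hg ((a - w) + (t - (a - w)) / w * w) t (by omega) (by omega)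
        have h5 := hc.dist_triangle (u := γ ((a - w) + (t - (a - w)) / w * w)) (v := γ t) (w := x)
        have h6 : G.dist (γ t) x = G.dist x (γ t) := SimpleGraph.dist_comm
        omega
    have hcard : S.card ≤ m * (32 * bn G r) := by
      refine (Finset.card_le_card hsub).trans ?_
      refine (Finset.card_biUnion_le_card_mul _ _ (32 * bn G r) ?_).trans (by rw [Finset.card_range])
      intro j _
      rw [hb]
      exact hbw _ (by omega)
    have hmw : w * m ≤ b - a + 4 * w := by
      rw [hm]
      have := Nat.mul_div_le (b - a + 2 * w) w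
      have h2 : w * ((b - a + 2 * w) / w + 1) = w * ((b - a + 2 * w) / w) + w := by ring
      omega
    calc w * S.card ≤ w * (m * (32 * bn G r)) := Nat.mul_le_mul_left _ hcard
      _ = (w * m) * (32 * bn G r) := by ring
      _ ≤ _ := Nat.mul_le_mul_right _ hmw
  · -- levels
    intro a
    set S := (om G γ w D).filter (fun x => a ≤ G.dist (γ 0) x ∧ G.dist (γ 0) x < a + w) with hS
    rcases S.eq_empty_or_nonempty with h0 | ⟨x0, hx0⟩
    · rw [h0]; simp
    · obtain ⟨hx1, hx2, hx3⟩ := Finset.mem_filter.1 hx0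
      obtain ⟨t0, ht1, ht2, ht3, ht4, ht5⟩ := hheight x0 hx1
      refine (card_le_bn hb (x := γ t0) (r := 4 * w) ?_).trans (hbw _ (by omega))
      intro y hy
      obtain ⟨hy1, hy2, hy3⟩ := Finset.mem_filter.1 hy
      obtain ⟨t, hu1, hu2, hu3, hu4, hu5⟩ := hheight y hy1
      have h5 := hc.dist_triangle (u := γ t0) (v := γ t) (w := y)
      have h6 : G.dist (γ t) y = G.dist y (γ t) := SimpleGraph.dist_comm
      have h7 : G.dist (γ t0) (γ t) ≤ 3 * w := by
        rcases le_total t0 t with hle | hle
        · have := hg t0 t hle (by omega)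
          omega
        · have := hg t t0 hle (by omega)
          rw [SimpleGraph.dist_comm] at this
          omega
      omega
  · -- paths
    intro a b x hx y hy hax hay hxb hyb
    obtain ⟨t, ht1, ht2, ht3, ht4, ht5⟩ := hheight x hx
    obtain ⟨s, hs1, hs2, hs3, hs4, hs5⟩ := hheight y hy
    set F : Set V := {v | v ∈ om G γ w D ∧ a ≤ G.dist (γ 0) v + w ∧ G.dist (γ 0) v ≤ b + w} with hF
    -- from a vertex of `om` to the geodesic
    have key : ∀ z, ∀ k, 15 * w ≤ k → k + 15 * w ≤ D → G.dist z (γ k) ≤ w → a ≤ G.dist (γ 0) z →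
        G.dist (γ 0) z ≤ b → Conn G F z (γ k) := by
      intro z k hk1 hk2 hk3 ha hb'
      -- vertices of a shortest path are within `w` of both ends
      obtain ⟨p, hp⟩ := hc.exists_walk_length_eq_dist z (γ k)
      have h3 : ∀ (n : ℕ) (c d : V) (q : G.Walk c d), q.length ≤ n →
          Conn G {v | G.dist c v ≤ n ∧ G.dist v d ≤ n} c d := by
        intro n c d q hq
        induction q generalizing n with
        | nil => exact Conn.refl (by simp)
        | @cons c e d he q ih =>
          have hce : G.dist c e = 1 := SimpleGraph.dist_eq_one_iff_adj.2 he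
          rw [SimpleGraph.Walk.length_cons] at hq
          have h4 : Conn G {v | G.dist c v ≤ n ∧ G.dist v d ≤ n} e d := by
            refine (ih (n - 1) (by omega)).mono ?_
            rintro v ⟨hv1, hv2⟩
            have := hc.dist_triangle (u := c) (v := e) (w := v)
            refine ⟨by omega, by omega⟩
          refine Conn.trans (Conn.adj ⟨by simp, ?_⟩ h4.left he) h4
          have h5 : G.dist c d ≤ (SimpleGraph.Walk.cons he q).length := SimpleGraph.dist_le _
          rw [SimpleGraph.Walk.length_cons] at h5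
          omega
      refine (h3 w z (γ k) p (by omega)).mono ?_
      rintro v ⟨hv1, hv2⟩
      have h4 := hc.dist_triangle (u := γ 0) (v := z) (w := v)
      have h5 := hc.dist_triangle (u := γ 0) (v := v) (w := z)
      have h6 : G.dist v z = G.dist z v := SimpleGraph.dist_comm
      exact ⟨mem_om.2 ⟨k, hk1, hk2, hv2⟩, by omega, by omega⟩
    have hx' := key x t ht1 ht2 ht3 hax hxb
    have hy' := key y s hs1 hs2 hs3 hay hyb
    have hmid : Conn G F (γ t) (γ s) := by
      have hγ : ∀ k, 15 * w ≤ k → k + 15 * w ≤ D → a ≤ k + w → k ≤ b + w → γ k ∈ F := by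
        intro k hk1 hk2 hk3 hk4
        have := geo0 hg (t := k) (by omega)
        refine ⟨mem_om.2 ⟨k, hk1, hk2, by simp⟩, by omega, by omega⟩
      rcases le_total t s with hle | hle
      · exact conn_geo hg hle (by omega) (fun i h1 h2 => hγ i (by omega) (by omega) (by omega) (by omega))
      · exact (conn_geo hg hle (by omega)
          (fun i h1 h2 => hγ i (by omega) (by omega) (by omega) (by omega))).symm
    obtain ⟨l, hl, hlF⟩ := ((hx'.trans hmid).trans hy'.symm).exists_path
    exact ⟨l, hl.1, hl.2.1, hl.2.2, fun v hv => hlF v hv⟩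

end Pool.Agent.Lib.MP_688fd0_co.LIN.H28
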